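import Pool.Agent.FUR.Stmts

/-!
# Squad FUR, row SIM: few essential variables if the sensitivity is small
-/

set_option autoImplicit false

open Finset

namespace Pool.Agent.FUR.H27

variable {N : ℕ}

theorem fl_fl (x : Fin N → Bool) (v : Fin N) : fl (fl x v) v = x := by
  funext w
  unfold fl
  by_cases h : w = v
  · subst h
    simp
  · simp [Function.update_of_ne h]

theorem fl_comm (x : Fin N → Bool) {v w : Fin N} (h : v ≠ w) :
    fl (fl x v) w = fl (fl x w) v := by
  unfold fl
  rw [Function.update_of_ne h.symm, Function.update_of_ne h, Function.update_comm h]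

theorem mem_Sn (f : BF N) (x : Fin N → Bool) (v : Fin N) :
    v ∈ Sn f x ↔ f (fl x v) ≠ f x := by
  unfold Sn
  simp

theorem Sn_sub (g : BF N) (v : Fin N) (x : Fin N → Bool)
    (hx : decide (g (fl x v) ≠ g x) = true) :
    Sn (fun y => decide (g (fl y v) ≠ g y)) x ⊆ Sn g x ∪ Sn g (fl x v) := by
  have hx' : g (fl x v) ≠ g x := of_decide_eq_true hx
  intro w hw
  rw [mem_Sn] at hw
  simp only [hx, ne_eq] at hw
  have hw2 : g (fl (fl x w) v) = g (fl x w) := by
    by_contra hc
    exact hw (by simp [hc])
  rw [Finset.mem_union, mem_Sn, mem_Sn]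
  by_contra hc
  push Not at hc
  obtain ⟨c1, c2⟩ := hc
  by_cases e : v = w
  · subst e
    rw [fl_fl] at hw2
    exact hx' hw2.symm
  · rw [fl_comm x (fun e2 => e e2.symm), c2, c1] at hw2
    exact hx' hw2

open Classical in
theorem sim (hD : DENStmt) : SIMStmt := by
  intro N r g hg
  have key : ∀ v ∈ (univ.filter fun v => Ess g v),
      2 ^ N ≤ 4 ^ r * (univ.filter fun x : Fin N → Bool => v ∈ Sn g x).card := by
    intro v hv
    have hv' : Ess g v := (Finset.mem_filter.1 hv).2
    obtain ⟨x0, hx0⟩ := hv'
    have h1 := hD N (2 * r) (fun y => decide (g (fl y v) ≠ g y)) ⟨x0, by simpa using hx0⟩ (by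
      intro x hx
      have hx2 : decide (g (fl x v) ≠ g x) = true := hx
      calc _ ≤ (Sn g x ∪ Sn g (fl x v)).card := Finset.card_le_card (Sn_sub g v x hx2)
        _ ≤ (Sn g x).card + (Sn g (fl x v)).card := Finset.card_union_le _ _
        _ ≤ r + r := Nat.add_le_add (hg _) (hg _)
        _ = 2 * r := by ring)
    have e : (univ.filter fun x : Fin N → Bool => (fun y => decide (g (fl y v) ≠ g y)) x = true) =
        univ.filter fun x : Fin N → Bool => v ∈ Sn g x := by
      apply Finset.filter_congr
      intro x _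
      rw [mem_Sn]
      simp
    rw [e] at h1
    calc 2 ^ N ≤ _ := h1
      _ = _ := by rw [pow_mul]; norm_num
  have h2 : ∑ v ∈ (univ.filter fun v => Ess g v),
      (univ.filter fun x : Fin N → Bool => v ∈ Sn g x).card ≤ 2 ^ N * r := by
    calc _ = ∑ v ∈ (univ.filter fun v => Ess g v), ∑ x : Fin N → Bool,
          (if v ∈ Sn g x then 1 else 0) := by
          apply Finset.sum_congr rfl
          intro v _
          rw [Finset.card_filter]
      _ = ∑ x : Fin N → Bool, ∑ v ∈ (univ.filter fun v => Ess g v),
          (if v ∈ Sn g x then 1 else 0) := Finset.sum_comm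
      _ ≤ ∑ _x : Fin N → Bool, r := by
          apply Finset.sum_le_sum
          intro x _
          rw [← Finset.card_filter]
          exact (Finset.card_le_card (fun w hw => (Finset.mem_filter.1 hw).2)).trans (hg x)
      _ = _ := by
          rw [Finset.sum_const, Finset.card_univ, Fintype.card_fun, Fintype.card_bool,
            Fintype.card_fin, smul_eq_mul]
  have h3 : (univ.filter fun v => Ess g v).card * 2 ^ N ≤ (r * 4 ^ r) * 2 ^ N := by
    calc _ = ∑ _v ∈ (univ.filter fun v => Ess g v), 2 ^ N := by
          rw [Finset.sum_const, smul_eq_mul]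
      _ ≤ ∑ v ∈ (univ.filter fun v => Ess g v),
          4 ^ r * (univ.filter fun x : Fin N → Bool => v ∈ Sn g x).card :=
          Finset.sum_le_sum key
      _ = 4 ^ r * ∑ v ∈ (univ.filter fun v => Ess g v),
          (univ.filter fun x : Fin N → Bool => v ∈ Sn g x).card := by rw [Finset.mul_sum]
      _ ≤ 4 ^ r * (2 ^ N * r) := Nat.mul_le_mul_left _ h2
      _ = _ := by ring
  exact Nat.le_of_mul_le_mul_right h3 (by positivity)

end Pool.Agent.FUR.H27
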